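import Mathlib
import Pool.Agent.W543.GE.Stm

/-!
# Good endomorphisms of free algebras, part BIJ
-/

set_option autoImplicit false

open scoped TensorProduct

universe u

namespace Pool.Agent.W290.GE

open Pool.Agent.W543.GE

variable {K : Type u} [Field K] {n : ℕ}

/-- words -/
noncomputable def wd (v : List (Fin n)) : A K n := (v.map (fun i => x (K := K) i)).prod

theorem equiv_wd (v : List (Fin n)) :
    (FreeAlgebra.equivMonoidAlgebraFreeMonoid (R := K) (X := Fin n)) (wd v) =
      MonoidAlgebra.single (FreeMonoid.ofList v) 1 := by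
  induction v with
  | nil =>
    rw [wd, List.map_nil, List.prod_nil, map_one]
    rfl
  | cons i v ih =>
    have h1 : (wd (i :: v) : A K n) = x i * wd v := by
      rw [wd, List.map_cons, List.prod_cons]; rfl
    have h2 : (FreeAlgebra.equivMonoidAlgebraFreeMonoid (R := K) (X := Fin n)) (x i) =
        MonoidAlgebra.single (FreeMonoid.of i) 1 := by
      simp [FreeAlgebra.equivMonoidAlgebraFreeMonoid]
    rw [h1, map_mul, ih, h2, MonoidAlgebra.single_mul_single, one_mul]
    rfl

theorem strip_wd (φ : A K n →ₐ[K] A K n) (D : Fin n → (A K n →ₗ[K] A K n))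
    (h0 : ∀ k, eps (φ (x k)) = 0) (h1 : ∀ j, D j 1 = 0)
    (h2 : ∀ j k a, D j (a * φ (x k)) = if j = k then a else 0) (w v : List (Fin n)) :
    eps ((w.map D).prod (φ (wd v))) = if w = v then 1 else 0 := by
  induction w using List.reverseRecOn generalizing v with
  | nil =>
    rw [List.map_nil, List.prod_nil, Module.End.one_apply]
    cases v with
    | nil => simp [wd]
    | cons i v =>
      rw [if_neg (by simp), wd, List.map_cons, List.prod_cons, map_mul, map_mul, h0, zero_mul]
  | append_singleton w j ih =>
    have e1 : ∀ a : A K n, ((w ++ [j]).map D).prod a = (w.map D).prod (D j a) := by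
      intro a
      rw [List.map_append, List.prod_append, List.map_singleton, List.prod_singleton]
      rfl
    rw [e1]
    induction v using List.reverseRecOn with
    | nil =>
      rw [if_neg (by simp), wd, List.map_nil, List.prod_nil, map_one, h1, map_zero, map_zero]
    | append_singleton v k _ =>
      have e2 : (wd (v ++ [k]) : A K n) = wd v * x k := by
        rw [wd, List.map_append, List.prod_append, List.map_singleton, List.prod_singleton]
        rfl
      rw [e2, map_mul, h2]
      by_cases hjk : j = k
      · subst hjk
        rw [if_pos rfl, ih]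
        by_cases hwv : w = v
        · rw [if_pos hwv, if_pos (by rw [hwv])]
        · rw [if_neg hwv, if_neg (fun h => hwv (List.append_left_injective _ h))]
      · rw [if_neg hjk, map_zero, map_zero, if_neg]
        intro h
        have h3 := (List.append_inj' h rfl).2
        simp only [List.cons.injEq, and_true] at h3
        exact hjk h3

open scoped Classical in
theorem coeff_eq (φ : A K n →ₐ[K] A K n) (D : Fin n → (A K n →ₗ[K] A K n))
    (h0 : ∀ k, eps (φ (x k)) = 0) (h1 : ∀ j, D j 1 = 0)
    (h2 : ∀ j k a, D j (a * φ (x k)) = if j = k then a else 0) (w : List (Fin n))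
    (f : MonoidAlgebra K (FreeMonoid (Fin n))) :
    eps ((w.map D).prod (φ ((FreeAlgebra.equivMonoidAlgebraFreeMonoid (R := K) (X := Fin n)).symm
      f))) = f.coeff (FreeMonoid.ofList w) := by
  induction f using MonoidAlgebra.induction_linear with
  | zero => simp
  | add f g hf hg =>
    rw [map_add, map_add, map_add, map_add, hf, hg]
    rfl
  | single v r =>
    have e1 : (MonoidAlgebra.single v r : MonoidAlgebra K (FreeMonoid (Fin n))) =
        r • MonoidAlgebra.single v 1 := by
      rw [MonoidAlgebra.smul_single, smul_eq_mul, mul_one]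
    have e2 : (FreeAlgebra.equivMonoidAlgebraFreeMonoid (R := K) (X := Fin n)).symm
        (MonoidAlgebra.single v 1) = wd (FreeMonoid.toList v) := by
      rw [AlgEquiv.symm_apply_eq, equiv_wd]
      rfl
    rw [e1, map_smul, map_smul, map_smul, map_smul, e2, strip_wd φ D h0 h1 h2,
      MonoidAlgebra.coeff_smul_apply, MonoidAlgebra.coeff_single, Finsupp.single_apply]
    congr 1
    by_cases h : w = FreeMonoid.toList v
    · rw [if_pos h, if_pos (by rw [h]; rfl)]
    · rw [if_neg h, if_neg]
      intro h3
      apply h
      rw [h3]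
      rfl

theorem mem_range (φ : A K n →ₐ[K] A K n) (D : Fin n → (A K n →ₗ[K] A K n))
    (h3 : ∀ a, a = algebraMap K (A K n) (eps a) + ∑ j, D j a * φ (x j)) (k : ℕ) (a : A K n)
    (h : ∀ w : List (Fin n), k ≤ w.length → (w.map D).prod a = 0) : a ∈ φ.range := by
  induction k generalizing a with
  | zero =>
    have h4 := h [] (Nat.zero_le _)
    rw [List.map_nil, List.prod_nil, Module.End.one_apply] at h4
    rw [h4]
    exact zero_mem _
  | succ k ih =>
    rw [h3 a]
    refine add_mem (Subalgebra.algebraMap_mem _ _) (sum_mem fun j _ => mul_mem ?_ ?_)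
    · apply ih
      intro w hw
      have h5 := h (w ++ [j]) (by simpa using hw)
      rw [List.map_append, List.prod_append, List.map_singleton, List.prod_singleton] at h5
      exact h5
    · exact ⟨x j, rfl⟩

/-- GE-BIJ -/
theorem t_BIJ : BIJ_stmt.{u} := by
  intro K _ n φ D nab h0 hS hnil
  constructor
  · rw [injective_iff_map_eq_zero]
    intro a ha
    obtain ⟨f, rfl⟩ := (FreeAlgebra.equivMonoidAlgebraFreeMonoid (R := K) (X := Fin n)).symm.surjective a
    have hf : f = 0 := by
      ext w
      have h1 := coeff_eq φ D h0 hS.D_one hS.D_mul (FreeMonoid.toList w) f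
      rw [ha, map_zero, map_zero] at h1
      rw [FreeMonoid.ofList_toList] at h1
      rw [← h1]
      rfl
    rw [hf, map_zero]
  · intro a
    obtain ⟨k, hk⟩ := hnil a
    exact mem_range φ D hS.decomp k a hk

end Pool.Agent.W290.GE
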